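import Pool.Agent.H85.ERG.Targets

/-! CL: for a fixed radius the set of centres of charts is closed. -/

set_option autoImplicit false

namespace Pool.Agent.H37.ERG

open MeasureTheory Set Metric Filter Topology Pool.Agent.H85.ERG Pool.Agent.H93.EN
open Pool.Agent.H93.BL hiding T_B1 T_B2 T_B3 T_SB T_SC

theorem CL_all (R : ℝ) (Q : ℂ → Prop) : IsClosed {x : ℂ | ∀ y ∈ ball x R, Q y} := by
  have h : {x : ℂ | ∀ y ∈ ball x R, Q y} = ⋂ y ∈ {y | ¬ Q y}, {x : ℂ | R ≤ dist y x} := by
    ext x
    simp only [mem_ofPred_eq, mem_iInter, mem_ball]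
    constructor
    · intro h y hy
      by_contra hlt
      exact hy (h y (not_le.1 hlt))
    · intro h y hy
      by_contra hQ
      exact absurd (h y hQ) (not_le.2 hy)
  rw [h]
  exact isClosed_biInter fun y _ => isClosed_le continuous_const (continuous_const.dist continuous_id)

theorem cl : T_CL := by
  intro ι P R τ
  cases τ with
  | none => exact CL_all R fun y => y ∈ P.Ω
  | some j =>
    have hsg : Continuous (sg P j) := by
      unfold sg cr
      fun_prop
    exact (isClosed_le continuous_const hsg).inter
      ((CL_all R fun y => 0 < sg P j y → y ∈ P.Ω).inter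
        (CL_all R fun y => sg P j y = 0 → y ∈ openSegment ℝ (P.p j) (P.q j)))

end Pool.Agent.H37.ERG
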