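import Pool.Agent.H85.ERG.Targets

/-! SH: volume of the shells around the vertices. -/

set_option autoImplicit false

namespace Pool.Agent.H37.ERG

open MeasureTheory Set Metric Filter Topology Pool.Agent.H85.ERG Pool.Agent.H93.EN
open Pool.Agent.H93.BL hiding T_B1 T_B2 T_B3 T_SB T_SC

theorem SH_ne {ι : Type} (P : Polygon ι) : (VV P).Nonempty := by
  by_contra hne
  have hι : IsEmpty ι := by
    by_contra h
    rw [not_isEmpty_iff] at h
    obtain ⟨i⟩ := h
    exact hne ⟨P.p i, i, Or.inl rfl⟩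
  have h1 : frontier P.Ω = ∅ := by
    rw [P.frontier_eq]
    exact iUnion_of_empty _
  have h2 : IsClopen P.Ω := isClopen_iff_frontier_eq_empty.2 h1
  rcases isClopen_iff.1 h2 with h3 | h3
  · exact P.isConnected.nonempty.ne_empty h3
  · have h4 := P.isBounded
    rw [h3] at h4
    exact NormedSpace.unbounded_univ ℝ ℂ h4

theorem SH_fin {ι : Type} [Finite ι] (P : Polygon ι) : (VV P).Finite := by
  have h : VV P ⊆ range P.p ∪ range P.q := by
    rintro w ⟨i, h | h⟩
    · exact Or.inl ⟨i, h.symm⟩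
    · exact Or.inr ⟨i, h.symm⟩
  exact ((finite_range _).union (finite_range _)).subset h

theorem SH_ann (v : ℂ) (R h : ℝ) (hR : 0 < R) (hh : 0 < h) (hhR : h ≤ R) :
    volume (ball v R \ ball v (R - h)) ≤ ENNReal.ofReal (2 * Real.pi * R * h) := by
  rw [measure_sdiff (ball_subset_ball (by linarith)) measurableSet_ball.nullMeasurableSet
    measure_ball_lt_top.ne, Complex.volume_ball, Complex.volume_ball]
  have h1 : (NNReal.pi : ENNReal) = ENNReal.ofReal Real.pi := by
    rw [ENNReal.ofReal]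
    congr 1
    exact (Real.toNNReal_of_nonneg Real.pi_pos.le).symm
  rw [h1, ← ENNReal.ofReal_pow hR.le, ← ENNReal.ofReal_pow (by linarith),
    ← ENNReal.ofReal_mul (by positivity), ← ENNReal.ofReal_mul (by nlinarith [sq_nonneg (R - h)]),
    ← ENNReal.ofReal_sub _ (by have := Real.pi_pos; positivity)]
  apply ENNReal.ofReal_le_ofReal
  nlinarith [Real.pi_pos, mul_pos Real.pi_pos (mul_pos hh hh)]

theorem sh : T_SH := by
  intro ι _ P
  refine ⟨SH_ne P, ?_⟩
  have hfin := SH_fin P
  set F := hfin.toFinset with hF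
  have hcard : 0 < (F.card : ℝ) := by
    have h1 : F.Nonempty := by
      rw [hF, Set.Finite.toFinset_nonempty]
      exact SH_ne P
    exact_mod_cast Finset.card_pos.2 h1
  refine ⟨2 * Real.pi * F.card, by have := Real.pi_pos; positivity, ?_⟩
  intro R hR h hh
  have hsub : {x : ℂ | R - h ≤ rh P x ∧ rh P x < R} ⊆ ⋃ v ∈ F, ball v R \ ball v (R - h) := by
    rintro x ⟨h1, h2⟩
    obtain ⟨v, hv, hxv⟩ := hfin.isCompact.exists_infDist_eq_dist (SH_ne P) x
    refine mem_iUnion₂.2 ⟨v, hfin.mem_toFinset.2 hv, ?_, ?_⟩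
    · rw [mem_ball, ← hxv]
      exact h2
    · rw [mem_ball, ← hxv, not_lt]
      exact h1
  calc volume {x : ℂ | R - h ≤ rh P x ∧ rh P x < R}
      ≤ volume (⋃ v ∈ F, ball v R \ ball v (R - h)) := measure_mono hsub
    _ ≤ ∑ v ∈ F, volume (ball v R \ ball v (R - h)) := measure_biUnion_finset_le _ _
    _ ≤ ∑ _v ∈ F, ENNReal.ofReal (2 * Real.pi * R * h) :=
        Finset.sum_le_sum fun v _ => SH_ann v R h hR hh.1 hh.2
    _ = ENNReal.ofReal (2 * Real.pi * F.card * R * h) := by
        rw [Finset.sum_const, nsmul_eq_mul, ← ENNReal.ofReal_natCast,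
          ← ENNReal.ofReal_mul hcard.le]
        congr 1
        ring

end Pool.Agent.H37.ERG
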